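import Pool.Agent.W251.EX.Defs

/-!
Project EX: joint equidistribution modulo `k` of `Ω(d)` and `Ω(d')` from `S_CHR`.
-/

set_option autoImplicit false

namespace Pool.Agent.W397.EX

open Finset Filter
open Pool.Agent.W78.EC (SP)
open Pool.Agent.W251.EX

theorem modEq_iff_dvd {k : ℕ} (hk : 1 ≤ k) (x i : ℕ) :
    x ≡ i [MOD k] ↔ k ∣ x + (k - 1) * i := by
  rw [← Nat.modEq_zero_iff_dvd]
  have h1 : x + (k - 1) * i + i = x + k * i := by
    obtain ⟨m, rfl⟩ : ∃ m, k = m + 1 := ⟨k - 1, by omega⟩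
    simp only [Nat.add_sub_cancel]
    ring
  have h2 : x + k * i ≡ x [MOD k] := by
    have : x + k * i ≡ x + 0 [MOD k] :=
      Nat.ModEq.add_left x ((Nat.modEq_zero_iff_dvd).2 (Dvd.intro i rfl))
    exact this
  constructor
  · intro h
    refine Nat.ModEq.add_right_cancel' i ?_
    rw [h1, zero_add]
    exact h2.trans h
  · intro h
    have h3 := Nat.ModEq.add_right i h
    rw [h1, zero_add] at h3
    exact h2.symm.trans h3

/-- orthogonality -/
theorem orth {k : ℕ} {ζ : ℂ} (hζ : IsPrimitiveRoot ζ k) (y : ℕ) :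
    ∑ l ∈ range k, (ζ ^ l) ^ y = if k ∣ y then (k : ℂ) else 0 := by
  have h1 : ∀ l, (ζ ^ l) ^ y = (ζ ^ y) ^ l := fun l => by rw [← pow_mul, ← pow_mul, mul_comm]
  simp only [h1]
  split_ifs with h
  · have h2 : ζ ^ y = 1 := (hζ.pow_eq_one_iff_dvd y).2 h
    simp [h2]
  · have h2 : ζ ^ y ≠ 1 := fun h3 => h ((hζ.pow_eq_one_iff_dvd y).1 h3)
    rw [geom_sum_eq h2, ← pow_mul, mul_comm y k, pow_mul, hζ.pow_eq_one, one_pow, sub_self,
      zero_div]

theorem ind_eq {k : ℕ} (hk : 1 ≤ k) {ζ : ℂ} (hζ : IsPrimitiveRoot ζ k) (i j x y : ℕ) (m : ℂ) :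
    (if x ≡ i [MOD k] ∧ y ≡ j [MOD k] then 1 / m else 0) =
      1 / (k : ℂ) ^ 2 * ∑ e ∈ range k ×ˢ range k,
        ((ζ ^ e.1) ^ ((k - 1) * i) * (ζ ^ e.2) ^ ((k - 1) * j)) *
          ((ζ ^ e.1) ^ x * (ζ ^ e.2) ^ y / m) := by
  have hk0 : (k : ℂ) ≠ 0 := by
    have : k ≠ 0 := by omega
    exact_mod_cast this
  have h1 : ∑ e ∈ range k ×ˢ range k,
        ((ζ ^ e.1) ^ ((k - 1) * i) * (ζ ^ e.2) ^ ((k - 1) * j)) *
          ((ζ ^ e.1) ^ x * (ζ ^ e.2) ^ y / m) =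
      (∑ l ∈ range k, (ζ ^ l) ^ (x + (k - 1) * i)) *
        (∑ l ∈ range k, (ζ ^ l) ^ (y + (k - 1) * j)) / m := by
    rw [Finset.sum_mul_sum, ← Finset.sum_product', Finset.sum_div]
    refine Finset.sum_congr rfl fun e _ => ?_
    rw [pow_add (ζ ^ e.1), pow_add (ζ ^ e.2)]
    ring
  rw [h1, orth hζ, orth hζ]
  have hx' := modEq_iff_dvd hk x i
  have hy' := modEq_iff_dvd hk y j
  by_cases hx : x ≡ i [MOD k]
  · by_cases hy : y ≡ j [MOD k]
    · rw [if_pos ⟨hx, hy⟩, if_pos (hx'.1 hx), if_pos (hy'.1 hy)]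
      field_simp
    · rw [if_neg (fun h => hy h.2), if_neg (fun h => hy (hy'.2 h)), mul_zero, zero_div, mul_zero]
  · rw [if_neg (fun h => hx h.1), if_neg (fun h => hx (hx'.2 h)), zero_mul, zero_div, mul_zero]

open scoped Classical in
/-- the character sums -/
noncomputable def TT (q a r : ℕ) (b₁ b₂ : ℂ) (N : ℕ) : ℂ := ∑ p ∈ (SP N).filter (Cd q a r),
    b₁ ^ ArithmeticFunction.cardFactors p.1 * b₂ ^ ArithmeticFunction.cardFactors p.2 /
      ((max p.1 p.2 : ℕ) : ℂ)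

open scoped Classical in
theorem finj (h : S_CHR) : S_FINJ := by
  intro k hk q a r hq i j
  obtain ⟨ζ, hζ⟩ : ∃ ζ : ℂ, IsPrimitiveRoot ζ k :=
    ⟨_, Complex.isPrimitiveRoot_exp k (by omega)⟩
  have hζk : ∀ l, (ζ ^ l) ^ k = 1 := fun l => by
    rw [← pow_mul, mul_comm, pow_mul, hζ.pow_eq_one, one_pow]
  obtain ⟨c, hc⟩ : ∃ c : ℕ × ℕ → ℂ, c = fun e =>
      (ζ ^ e.1) ^ ((k - 1) * i) * (ζ ^ e.2) ^ ((k - 1) * j) := ⟨_, rfl⟩
  have key : ∀ N : ℕ, ((∑ p ∈ (SP N).filter (fun p => Cd q a r p ∧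
      ArithmeticFunction.cardFactors p.1 ≡ i [MOD k] ∧
      ArithmeticFunction.cardFactors p.2 ≡ j [MOD k]), 1 / ((max p.1 p.2 : ℕ) : ℝ) : ℝ) : ℂ) =
      1 / (k : ℂ) ^ 2 * ∑ e ∈ range k ×ˢ range k, c e * TT q a r (ζ ^ e.1) (ζ ^ e.2) N := by
    intro N
    have h1 : ∑ e ∈ range k ×ˢ range k, c e * TT q a r (ζ ^ e.1) (ζ ^ e.2) N =
        ∑ p ∈ SP N, if Cd q a r p then ∑ e ∈ range k ×ˢ range k, c e *
          ((ζ ^ e.1) ^ ArithmeticFunction.cardFactors p.1 *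
            (ζ ^ e.2) ^ ArithmeticFunction.cardFactors p.2 / ((max p.1 p.2 : ℕ) : ℂ)) else 0 := by
      rw [← Finset.sum_filter, Finset.sum_comm]
      refine Finset.sum_congr rfl fun e _ => ?_
      rw [TT, Finset.mul_sum]
    rw [h1, Finset.mul_sum, Complex.ofReal_sum, Finset.sum_filter]
    refine Finset.sum_congr rfl fun p _ => ?_
    by_cases hp : Cd q a r p
    · rw [if_pos hp, hc, ← ind_eq hk hζ]
      by_cases h2 : ArithmeticFunction.cardFactors p.1 ≡ i [MOD k] ∧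
        ArithmeticFunction.cardFactors p.2 ≡ j [MOD k]
      · rw [if_pos ⟨hp, h2⟩, if_pos h2, Complex.ofReal_div, Complex.ofReal_one,
          Complex.ofReal_natCast]
      · rw [if_neg (fun h3 => h2 h3.2), if_neg h2]
    · rw [if_neg (fun h3 => hp h3.1), if_neg hp, mul_zero]
  have h0 : ∀ N : ℕ, ((∑ p ∈ (SP N).filter (Cd q a r), 1 / ((max p.1 p.2 : ℕ) : ℝ) : ℝ) : ℂ) =
      TT q a r (ζ ^ 0) (ζ ^ 0) N := by
    intro N
    rw [TT, Complex.ofReal_sum]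
    refine Finset.sum_congr rfl fun p _ => ?_
    rw [pow_zero, one_pow, one_pow, one_mul, Complex.ofReal_div, Complex.ofReal_one,
      Complex.ofReal_natCast]
  have hlim : Tendsto (fun N : ℕ => 1 / (k : ℂ) ^ 2 *
      ∑ e ∈ (range k ×ˢ range k).erase (0, 0),
        c e * (TT q a r (ζ ^ e.1) (ζ ^ e.2) N / (Real.log N : ℂ))) atTop (nhds 0) := by
    have h1 : Tendsto (fun N : ℕ => ∑ e ∈ (range k ×ˢ range k).erase (0, 0),
        c e * (TT q a r (ζ ^ e.1) (ζ ^ e.2) N / (Real.log N : ℂ))) atTop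
        (nhds (∑ e ∈ (range k ×ˢ range k).erase (0, 0), c e * 0)) := by
      refine tendsto_finsetSum _ fun e he => ?_
      refine Tendsto.const_mul _ ?_
      obtain ⟨he1, he2⟩ := Finset.mem_erase.1 he
      obtain ⟨he3, he4⟩ := Finset.mem_product.1 he2
      refine h k (ζ ^ e.1) (ζ ^ e.2) hk (hζk _) (hζk _) ?_ q a r hq
      by_contra hno
      push Not at hno
      apply he1
      have e1 : e.1 = 0 := by
        by_contra h5
        exact hζ.pow_ne_one_of_pos_of_lt h5 (Finset.mem_range.1 he3) hno.1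
      have e2 : e.2 = 0 := by
        by_contra h5
        exact hζ.pow_ne_one_of_pos_of_lt h5 (Finset.mem_range.1 he4) hno.2
      exact Prod.ext e1 e2
    have h2 := h1.const_mul (1 / (k : ℂ) ^ 2)
    simpa using h2
  have hre := (Complex.continuous_re.tendsto 0).comp hlim
  rw [Complex.zero_re] at hre
  refine hre.congr fun N => ?_
  have h00 : ((0, 0) : ℕ × ℕ) ∈ range k ×ˢ range k := by
    rw [Finset.mem_product]
    exact ⟨Finset.mem_range.2 (by omega), Finset.mem_range.2 (by omega)⟩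
  have h3 : 1 / (k : ℂ) ^ 2 * ∑ e ∈ (range k ×ˢ range k).erase (0, 0),
        c e * (TT q a r (ζ ^ e.1) (ζ ^ e.2) N / (Real.log N : ℂ)) =
      ((((∑ p ∈ (SP N).filter (fun p => Cd q a r p ∧
        ArithmeticFunction.cardFactors p.1 ≡ i [MOD k] ∧
        ArithmeticFunction.cardFactors p.2 ≡ j [MOD k]), 1 / ((max p.1 p.2 : ℕ) : ℝ)) -
        1 / (k : ℝ) ^ 2 * ∑ p ∈ (SP N).filter (Cd q a r), 1 / ((max p.1 p.2 : ℕ) : ℝ)) /
          Real.log N : ℝ) : ℂ) := by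
    have hc0 : c (0, 0) = 1 := by rw [hc]; simp
    have h4 : ∑ e ∈ (range k ×ˢ range k).erase (0, 0),
        c e * (TT q a r (ζ ^ e.1) (ζ ^ e.2) N / (Real.log N : ℂ)) =
        ((∑ e ∈ range k ×ˢ range k, c e * TT q a r (ζ ^ e.1) (ζ ^ e.2) N) -
          TT q a r (ζ ^ 0) (ζ ^ 0) N) / (Real.log N : ℂ) := by
      rw [← Finset.add_sum_erase _ _ h00, hc0, one_mul, add_sub_cancel_left, Finset.sum_div]
      refine Finset.sum_congr rfl fun e _ => ?_
      rw [mul_div_assoc]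
    rw [h4, Complex.ofReal_div, Complex.ofReal_sub, Complex.ofReal_mul, key, h0]
    push_cast
    ring
  show (1 / (k : ℂ) ^ 2 * ∑ e ∈ (range k ×ˢ range k).erase (0, 0),
        c e * (TT q a r (ζ ^ e.1) (ζ ^ e.2) N / (Real.log N : ℂ))).re = _
  rw [h3, Complex.ofReal_re]

end Pool.Agent.W397.EX
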